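import Pool.Agent.Helper5.ST.GoalsB
import Pool.Agent.Helper5.ST.Api

/-!
Packet NRAPI for MP_f1caa3_al.
-/

namespace Pool.Agent.Helper87.ST

open Pool.Agent.Helper5.Gap Pool.Agent.Helper5.ST Filter Topology
open scoped InnerProductSpace commutatorElement

universe u

variable {G : Type u} [Group G] {X : Set G} {V : Type u} [NormedAddCommGroup V]
  [InnerProductSpace ℝ V] {π : G →* (V ≃ₗᵢ[ℝ] V)} {b : G → V} {E : Submodule ℝ V}
  [FiniteDimensional ℝ E] {β ε : ℝ}

theorem norm_P_le (v : V) : ‖E.starProjection v‖ ≤ ‖v‖ := E.norm_starProjection_apply_le v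

theorem norm_Q_le (v : V) : ‖v - E.starProjection v‖ ≤ ‖v‖ := by
  have h := Submodule.norm_sq_eq_add_norm_sq_starProjection v E
  have h2 : ‖v - E.starProjection v‖ = ‖Eᗮ.starProjection v‖ := by
    rw [Submodule.starProjection_orthogonal_val]
  rw [h2]
  have h3 : 0 ≤ ‖E.starProjection v‖ := norm_nonneg _
  have h4 : 0 ≤ ‖v‖ := norm_nonneg _
  nlinarith [norm_nonneg (Eᗮ.starProjection v)]

theorem inner_P (v w : V) : ⟪E.starProjection v, w⟫_ℝ = ⟪v, E.starProjection w⟫_ℝ :=
  Submodule.inner_starProjection_left_eq_right E v w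

theorem P_idem (v : V) : E.starProjection (E.starProjection v) = E.starProjection v :=
  Submodule.starProjection_eq_self_iff.2 (Submodule.starProjection_apply_mem E v)

theorem P_mem (v : V) : E.starProjection v ∈ E := Submodule.starProjection_apply_mem E v

theorem P_eq {v : V} (hv : v ∈ E) : E.starProjection v = v :=
  Submodule.starProjection_eq_self_iff.2 hv

theorem b_one (h : IsAA X π b E β ε) : b 1 = 0 := by
  have := h.coc 1 1
  rw [mul_one, Walk.rep_one] at this
  simpa using this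

theorem norm_b_inv (h : IsAA X π b E β ε) (g : G) : ‖b g⁻¹‖ = ‖b g‖ := by
  have h1 := h.coc g⁻¹ g
  rw [inv_mul_cancel, b_one h] at h1
  have h2 : b g⁻¹ = - π g⁻¹ (b g) := by
    rw [eq_neg_iff_add_eq_zero]; exact h1.symm
  rw [h2, norm_neg, Walk.norm_rep]

theorem norm_b_step (h : IsAA X π b E β ε) {s : G} (hs : s ∈ X ∨ s⁻¹ ∈ X) : ‖b s‖ ≤ β := by
  rcases hs with hs | hs
  · exact h.b_le s hs
  · rw [← norm_b_inv h]
    exact h.b_le _ hs

theorem norm_b_le (h : IsAA X π b E β ε) {a : ℕ} {g : G} (hg : g ∈ ball X a) :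
    ‖b g‖ ≤ a * β := by
  obtain ⟨l, hl, hx, rfl⟩ := hg
  have h1 : ‖b l.prod‖ ≤ l.length * β := by
    clear hl
    induction l with
    | nil => simp [b_one h]
    | cons s l ih =>
      rw [List.prod_cons, h.coc]
      have h2 := ih (fun x hx' => hx x (List.mem_cons_of_mem _ hx'))
      have h3 := norm_b_step h (hx s List.mem_cons_self)
      calc ‖b s + π s (b l.prod)‖ ≤ ‖b s‖ + ‖π s (b l.prod)‖ := norm_add_le _ _
        _ = ‖b s‖ + ‖b l.prod‖ := by rw [Walk.norm_rep]
        _ ≤ β + l.length * β := by linarith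
        _ = ((s :: l).length : ℕ) * β := by push_cast [List.length_cons]; ring
  refine h1.trans (mul_le_mul_of_nonneg_right (by exact_mod_cast hl) h.β0.le)

theorem inv_le (h : IsAA X π b E β ε) {a : ℕ} {g : G} (hg : g ∈ ball X a) :
    ∀ v ∈ E, ‖π g v - E.starProjection (π g v)‖ ≤ a * ε * ‖v‖ := by
  intro v hv
  obtain ⟨l, hl, hx, rfl⟩ := hg
  have h1 : ‖π l.prod v - E.starProjection (π l.prod v)‖ ≤ l.length * ε * ‖v‖ := by
    clear hl
    induction l with
    | nil => simp [Walk.rep_one, P_eq hv]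
    | cons s l ih =>
      rw [List.prod_cons, Walk.rep_mul]
      have h2 := ih (fun x hx' => hx x (List.mem_cons_of_mem _ hx'))
      set w := π l.prod v with hw
      have hwn : ‖w‖ = ‖v‖ := Walk.norm_rep _ _ _
      have h3 := h.inv s (hx s List.mem_cons_self) (E.starProjection w) (P_mem w)
      have h4 : π s w - E.starProjection (π s w) =
          (π s (E.starProjection w) - E.starProjection (π s (E.starProjection w))) +
          (π s (w - E.starProjection w) - E.starProjection (π s (w - E.starProjection w))) := by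
        simp only [map_sub]; abel
      rw [h4]
      have h5 : ‖E.starProjection w‖ ≤ ‖v‖ := by rw [← hwn]; exact norm_P_le w
      calc _ ≤ ‖π s (E.starProjection w) - E.starProjection (π s (E.starProjection w))‖ +
          ‖π s (w - E.starProjection w) - E.starProjection (π s (w - E.starProjection w))‖ :=
            norm_add_le _ _
        _ ≤ ε * ‖E.starProjection w‖ + ‖π s (w - E.starProjection w)‖ :=
            add_le_add h3 (norm_Q_le _)
        _ = ε * ‖E.starProjection w‖ + ‖w - E.starProjection w‖ := by rw [Walk.norm_rep]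
        _ ≤ ε * ‖v‖ + l.length * ε * ‖v‖ :=
            add_le_add (mul_le_mul_of_nonneg_left h5 h.ε0) h2
        _ = ((s :: l).length : ℕ) * ε * ‖v‖ := by push_cast [List.length_cons]; ring
  refine h1.trans ?_
  gcongr
  exact h.ε0

/-- `P π(g) y` is small for `y` orthogonal to `E`. -/
theorem P_rep_orth (h : IsAA X π b E β ε) {a : ℕ} {g : G} (hg : g ∈ ball X a) (v : V) :
    ‖E.starProjection (π g (v - E.starProjection v))‖ ≤ a * ε * ‖v‖ := by
  set y := v - E.starProjection v with hy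
  set e := E.starProjection (π g y) with he
  have heE : e ∈ E := P_mem _
  have h0 : E.starProjection y = 0 := by
    rw [hy, map_sub, P_idem, sub_self]
  have h1 : ‖e‖ ^ 2 = ⟪y, π g⁻¹ e - E.starProjection (π g⁻¹ e)⟫_ℝ := by
    rw [← real_inner_self_eq_norm_sq]
    calc ⟪e, e⟫_ℝ = ⟪π g y, E.starProjection e⟫_ℝ := by
          rw [he, inner_P]
        _ = ⟪π g y, e⟫_ℝ := by rw [P_eq heE]
        _ = ⟪y, π g⁻¹ e⟫_ℝ := Walk.inner_rep_left _ _ _ _
        _ = ⟪y, π g⁻¹ e - E.starProjection (π g⁻¹ e)⟫_ℝ := by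
          rw [inner_sub_right, ← inner_P, h0, inner_zero_left, sub_zero]
  have h2 := inv_le h (inv_mem_ball hg) e heE
  have h3 : ‖e‖ ^ 2 ≤ ‖v‖ * (a * ε * ‖e‖) := by
    rw [h1]
    refine (real_inner_le_norm _ _).trans ?_
    exact mul_le_mul (norm_Q_le v) h2 (norm_nonneg _) (norm_nonneg _)
  rcases (norm_nonneg e).eq_or_lt with h4 | h4
  · rw [← h4]
    have := h.ε0
    positivity
  · by_contra h5
    push Not at h5
    nlinarith

theorem P_rep_le (h : IsAA X π b E β ε) {a : ℕ} {g : G} (hg : g ∈ ball X a) (v : V) :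
    ‖E.starProjection (π g v)‖ ≤ ‖E.starProjection v‖ + a * ε * ‖v‖ := by
  have h1 : E.starProjection (π g v) = E.starProjection (π g (E.starProjection v)) +
      E.starProjection (π g (v - E.starProjection v)) := by
    simp only [map_sub]; abel
  rw [h1]
  refine (norm_add_le _ _).trans (add_le_add ?_ (P_rep_orth h hg v))
  refine (norm_P_le _).trans ?_
  rw [Walk.norm_rep]

theorem nr_inv {x : ℝ} {g : G} (hg : Nr π E x g) : Nr π E x g⁻¹ := by
  intro v hv
  have h1 : π g⁻¹ v - v = - π g⁻¹ (π g v - v) := by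
    rw [map_sub, Walk.rep_inv_rep]; abel
  rw [h1, norm_neg, Walk.norm_rep]
  exact hg v hv

theorem nr_mul {x y : ℝ} {g h : G} (hg : Nr π E x g) (hh : Nr π E y h) :
    Nr π E (x + y) (g * h) := by
  intro v hv
  have h1 : π (g * h) v - v = π g (π h v - v) + (π g v - v) := by
    rw [map_sub, Walk.rep_mul]; abel
  rw [h1]
  refine (norm_add_le _ _).trans ?_
  rw [Walk.norm_rep, add_mul]
  have := hg v hv
  have := hh v hv
  linarith

theorem norm_rep_sub_le (g : G) (v : V) : ‖π g v - v‖ ≤ 2 * ‖v‖ := by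
  refine (norm_sub_le _ _).trans ?_
  rw [Walk.norm_rep]
  linarith

/-- For `w` close to `E`. -/
theorem nr_near {y : ℝ} (hy : 0 ≤ y) {h : G} (hh : Nr π E y h) (w : V) :
    ‖π h w - w‖ ≤ y * ‖w‖ + 2 * ‖w - E.starProjection w‖ := by
  have h1 : π h w - w = (π h (E.starProjection w) - E.starProjection w) +
      (π h (w - E.starProjection w) - (w - E.starProjection w)) := by
    simp only [map_sub]; abel
  rw [h1]
  refine (norm_add_le _ _).trans (add_le_add ?_ (norm_rep_sub_le _ _))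
  refine (hh _ (P_mem w)).trans ?_
  exact mul_le_mul_of_nonneg_left (norm_P_le w) hy

theorem nr_conj (hA : IsAA X π b E β ε) {a : ℕ} {g h : G} (hg : g ∈ ball X a) {y : ℝ}
    (hy : 0 ≤ y) (hh : Nr π E y h) : Nr π E (y + 2 * (a * ε)) (g * h * g⁻¹) := by
  intro v hv
  have h1 : π (g * h * g⁻¹) v - v = π g (π h (π g⁻¹ v) - π g⁻¹ v) := by
    rw [map_sub, Walk.rep_mul, Walk.rep_mul, Walk.rep_rep_inv]
  rw [h1, Walk.norm_rep]
  refine (nr_near hy hh _).trans ?_
  rw [Walk.norm_rep]
  have := inv_le hA (inv_mem_ball hg) v hv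
  linarith

theorem two_step (hA : IsAA X π b E β ε) {c : ℕ} {g h : G} (hh' : h ∈ ball X c) {x y : ℝ}
    (hx : 0 ≤ x) (hg : Nr π E x g) (hh : Nr π E y h) {e : V} (he : e ∈ E) :
    ‖π g (π h e - e) - (π h e - e)‖ ≤ (x * y + 2 * (c * ε)) * ‖e‖ := by
  refine (nr_near hx hg _).trans ?_
  have h1 : (π h e - e) - E.starProjection (π h e - e) =
      π h e - E.starProjection (π h e) := by
    rw [map_sub, P_eq he]; abel
  rw [h1]
  have h2 := inv_le hA hh' e he
  have h3 := mul_le_mul_of_nonneg_left (hh e he) hx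
  linarith

theorem nr_comm (hA : IsAA X π b E β ε) {a c : ℕ} {g h : G} (hg' : g ∈ ball X a)
    (hh' : h ∈ ball X c) {x y : ℝ} (hx : 0 ≤ x) (hy : 0 ≤ y) (hg : Nr π E x g)
    (hh : Nr π E y h) : Nr π E (2 * x * y + 4 * ((a + c) * ε)) ⁅g, h⁆ := by
  intro v hv
  set w := π (g⁻¹ * h⁻¹) v with hw
  have hwn : ‖w‖ = ‖v‖ := Walk.norm_rep _ _ _
  have h1 : π ⁅g, h⁆ v - v = π g (π h w) - π h (π g w) := by
    rw [hw, ← Walk.rep_mul, ← Walk.rep_mul, ← Walk.rep_mul, ← Walk.rep_mul,
      commutatorElement_def]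
    have e1 : g * h * (g⁻¹ * h⁻¹) = g * h * g⁻¹ * h⁻¹ := by group
    have e2 : h * g * (g⁻¹ * h⁻¹) = 1 := by group
    rw [e1, e2, Walk.rep_one]
  set e := E.starProjection w with he
  have heE : e ∈ E := P_mem w
  have hen : ‖e‖ ≤ ‖v‖ := by rw [← hwn]; exact norm_P_le w
  have h2 : ‖w - e‖ ≤ (a + c) * ε * ‖v‖ := by
    have := inv_le hA (mul_mem_ball (inv_mem_ball hg') (inv_mem_ball hh')) v hv
    push_cast at this
    exact this
  have h3 : π g (π h w) - π h (π g w) =
      ((π g (π h e - e) - (π h e - e)) - (π h (π g e - e) - (π g e - e))) +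
      (π g (π h (w - e)) - π h (π g (w - e))) := by
    simp only [map_sub]; abel
  have h4 := two_step hA hh' hx hg hh heE
  have h5 := two_step hA hg' hy hh hg heE
  have h6 : ‖π g (π h (w - e)) - π h (π g (w - e))‖ ≤ 2 * ((a + c) * ε * ‖v‖) := by
    refine (norm_sub_le _ _).trans ?_
    rw [Walk.norm_rep, Walk.norm_rep, Walk.norm_rep, Walk.norm_rep]
    linarith
  have hε := hA.ε0
  rw [h1, h3]
  refine (norm_add_le _ _).trans ?_
  have h7 := norm_sub_le (π g (π h e - e) - (π h e - e)) (π h (π g e - e) - (π g e - e))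
  have h8 : (x * y + 2 * (c * ε)) * ‖e‖ ≤ (x * y + 2 * (c * ε)) * ‖v‖ :=
    mul_le_mul_of_nonneg_left hen (by positivity)
  have h9 : (y * x + 2 * (a * ε)) * ‖e‖ ≤ (y * x + 2 * (a * ε)) * ‖v‖ :=
    mul_le_mul_of_nonneg_left hen (by positivity)
  nlinarith

theorem nr_dual {x : ℝ} (hx : 0 ≤ x) {g : G} (hg : Nr π E x g) (v : V) :
    ‖E.starProjection (π g v - v)‖ ≤ x * ‖v‖ := by
  set e := E.starProjection (π g v - v) with he
  have heE : e ∈ E := P_mem _
  have h1 : ‖e‖ ^ 2 = ⟪v, π g⁻¹ e - e⟫_ℝ := by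
    rw [← real_inner_self_eq_norm_sq]
    calc ⟪e, e⟫_ℝ = ⟪π g v - v, E.starProjection e⟫_ℝ := by
          rw [he, inner_P]
        _ = ⟪π g v - v, e⟫_ℝ := by rw [P_eq heE]
        _ = ⟪v, π g⁻¹ e - e⟫_ℝ := by
          rw [inner_sub_left, inner_sub_right, Walk.inner_rep_left]
  have h3 : ‖e‖ ^ 2 ≤ ‖v‖ * (x * ‖e‖) := by
    rw [h1]
    refine (real_inner_le_norm _ _).trans ?_
    exact mul_le_mul_of_nonneg_left (nr_inv hg e heE) (norm_nonneg _)
  rcases (norm_nonneg e).eq_or_lt with h4 | h4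
  · rw [← h4]
    positivity
  · by_contra h5
    push Not at h5
    nlinarith

theorem nrApi : SNrApi.{u} := by
  intro G _ X V _ _ π b E _ β ε hA a c g h hg hh
  exact ⟨norm_b_le hA hg, inv_le hA hg, P_rep_le hA hg, fun x => nr_inv,
    fun x y _ => nr_mul, fun y hy => nr_conj hA hg hy,
    fun x y hx hy h1 h2 => nr_comm hA hg hh hx hy h1 h2, fun x hx h1 => nr_dual hx h1⟩

end Pool.Agent.Helper87.ST
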